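import Pool.Agent.helper75.LC.Spec

/-!
# Project lc, row PCS
-/

set_option autoImplicit false

namespace Pool.Agent.LC

open MX MG

open scoped MatrixGroups

section gen

variable {G : Type*} [Group G]

theorem PCS_cj_cj (g a : G) (K : Subgroup G) : cj g (cj a K) = cj (g * a) K := by
  ext x
  rw [mem_cj, mem_cj, mem_cj]
  have h : a⁻¹ * (g⁻¹ * x * g) * a = (g * a)⁻¹ * x * (g * a) := by group
  rw [h]

theorem PCS_cj_one (K : Subgroup G) : cj (1 : G) K = K := by
  ext x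
  rw [mem_cj]
  simp

/-- The class of the cyclic subgroup generated by `z`. -/
def PCS_cl (z : G) : Set (Subgroup G) := Set.range (fun g : G => cj g (Subgroup.zpowers z))

theorem PCS_cl_of (z z' g : G) (h : Subgroup.zpowers z' = cj g (Subgroup.zpowers z)) :
    PCS_cl z = PCS_cl z' := by
  unfold PCS_cl
  ext K
  constructor
  · rintro ⟨a, rfl⟩
    refine ⟨a * g⁻¹, ?_⟩
    change cj (a * g⁻¹) (Subgroup.zpowers z') = cj a (Subgroup.zpowers z)
    rw [h, PCS_cj_cj, inv_mul_cancel_right]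
  · rintro ⟨a, rfl⟩
    refine ⟨a * g, ?_⟩
    change cj (a * g) (Subgroup.zpowers z) = cj a (Subgroup.zpowers z')
    rw [h, PCS_cj_cj]

theorem PCS_of_cl (z z' : G) (h : PCS_cl z = PCS_cl z') :
    ∃ g : G, Subgroup.zpowers z' = cj g (Subgroup.zpowers z) := by
  have h1 : Subgroup.zpowers z' ∈ PCS_cl z' := ⟨1, PCS_cj_one _⟩
  rw [← h] at h1
  obtain ⟨g, hg⟩ := h1
  exact ⟨g, hg.symm⟩

theorem PCS_card (g : G) (K : Subgroup G) : Nat.card (cj g K) = Nat.card K := by
  unfold cj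
  exact Nat.card_congr (K.equivMapOfInjective _ (MulAut.conj g).injective).symm.toEquiv

theorem PCS_pow [Finite G] (z z' g : G) (h : Subgroup.zpowers z' = cj g (Subgroup.zpowers z)) :
    (∃ m : ℕ, z' = g * z ^ m * g⁻¹) ∧ orderOf z' = orderOf z := by
  constructor
  · have h1 : z' ∈ cj g (Subgroup.zpowers z) := by
      rw [← h]
      exact Subgroup.mem_zpowers z'
    rw [mem_cj] at h1
    have h2 : g⁻¹ * z' * g ∈ Submonoid.powers z := by
      rw [mem_powers_iff_mem_zpowers]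
      exact h1
    obtain ⟨m, hm⟩ := h2
    refine ⟨m, ?_⟩
    have hm' : z ^ m = g⁻¹ * z' * g := hm
    rw [hm']
    group
  · rw [← Nat.card_zpowers, ← Nat.card_zpowers, h, PCS_card]

end gen

section mod

variable {H V : Type*} [Group H] [AddCommGroup V] [DistribMulAction H V]

theorem PCS_cmm_pow (y : H) (k : ℕ) (w : V) : y ^ k • w - w ∈ cmm H V y := by
  induction k with
  | zero => rw [pow_zero, one_smul, sub_self]; exact (cmm H V y).zero_mem
  | succ k ih =>
    have h1 : y ^ (k + 1) • w - w = (y • (y ^ k • w) - y ^ k • w) + (y ^ k • w - w) := by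
      rw [pow_succ', mul_smul]; abel
    rw [h1]
    exact (cmm H V y).add_mem ⟨_, rfl⟩ ih

theorem PCS_cmm_conj (a y : H) (s : V) (hs : s ∈ cmm H V y) : a • s ∈ cmm H V (a * y * a⁻¹) := by
  obtain ⟨w, rfl⟩ := hs
  refine ⟨a • w, ?_⟩
  rw [smul_sub, smul_smul, smul_smul, inv_mul_cancel_right]

end mod

section spl

variable {G V : Type*} [Group G] [AddCommGroup V] {N H : Subgroup G} [DistribMulAction H V]
  {j : Multiplicative V →* G}

theorem PCS_uniq (hs : Spl N H j) (a b : V) (h k : H)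
    (e : j (Multiplicative.ofAdd a) * (h : G) = j (Multiplicative.ofAdd b) * (k : G)) :
    a = b ∧ h = k := by
  have h1 : (j (Multiplicative.ofAdd b))⁻¹ * j (Multiplicative.ofAdd a) = (k : G) * (h : G)⁻¹ := by
    rw [inv_mul_eq_iff_eq_mul, ← mul_assoc, ← e, mul_inv_cancel_right]
  have hN : (j (Multiplicative.ofAdd b))⁻¹ * j (Multiplicative.ofAdd a) ∈ N := by
    rw [← hs.rng]
    exact j.range.mul_mem (j.range.inv_mem ⟨_, rfl⟩) ⟨_, rfl⟩
  have hH : (j (Multiplicative.ofAdd b))⁻¹ * j (Multiplicative.ofAdd a) ∈ H := by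
    rw [h1]
    exact H.mul_mem k.2 (H.inv_mem h.2)
  have h2 : (j (Multiplicative.ofAdd b))⁻¹ * j (Multiplicative.ofAdd a) ∈ N ⊓ H := ⟨hN, hH⟩
  rw [hs.dis, Subgroup.mem_bot] at h2
  constructor
  · rw [inv_mul_eq_one] at h2
    exact (Multiplicative.ofAdd.injective (hs.inj h2)).symm
  · rw [h1, mul_inv_eq_one] at h2
    exact Subtype.ext h2.symm

theorem PCS_dec (hN : N.Normal) (hs : Spl N H j) (g : G) :
    ∃ (u : V) (a : H), g = j (Multiplicative.ofAdd u) * (a : G) := by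
  have h1 : g ∈ ((N ⊔ H : Subgroup G) : Set G) := by
    rw [hs.top]
    exact Subgroup.mem_top g
  rw [Subgroup.normal_mul] at h1
  obtain ⟨n, hn, h, hh, rfl⟩ := Set.mem_mul.1 h1
  have h2 : n ∈ j.range := by rw [hs.rng]; exact hn
  obtain ⟨u, rfl⟩ := h2
  exact ⟨Multiplicative.toAdd u, ⟨h, hh⟩, rfl⟩

theorem PCS_conj (hs : Spl N H j) (u s : V) (a h : H) :
    j (Multiplicative.ofAdd u) * (a : G) * (j (Multiplicative.ofAdd s) * (h : G)) *
      (j (Multiplicative.ofAdd u) * (a : G))⁻¹ =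
    j (Multiplicative.ofAdd (u + a • s - (a * h * a⁻¹) • u)) * ((a * h * a⁻¹ : H) : G) := by
  have h1 : Multiplicative.ofAdd (u + a • s - (a * h * a⁻¹) • u) =
      Multiplicative.ofAdd u * Multiplicative.ofAdd (a • s) *
        (Multiplicative.ofAdd ((a * h * a⁻¹) • u))⁻¹ := by
    rw [sub_eq_add_neg, ofAdd_add, ofAdd_add, ofAdd_neg]
  rw [h1, map_mul, map_mul, map_inv, hs.act, hs.act, Subgroup.coe_mul, Subgroup.coe_mul,
    Subgroup.coe_inv]
  group

theorem PCS_zpow (hs : Spl N H j) (v : V) (h : H) (m : ℕ) :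
    ∃ s : V, (j (Multiplicative.ofAdd v) * (h : G)) ^ m =
      j (Multiplicative.ofAdd s) * ((h ^ m : H) : G) ∧ s - m • v ∈ cmm H V h := by
  induction m with
  | zero =>
    refine ⟨0, ?_, ?_⟩
    · rw [pow_zero, pow_zero, ofAdd_zero, map_one]
      simp
    · rw [zero_smul, sub_self]; exact (cmm H V h).zero_mem
  | succ m ih =>
    obtain ⟨s, h1, h2⟩ := ih
    refine ⟨s + h ^ m • v, ?_, ?_⟩
    · rw [pow_succ, h1, ofAdd_add, map_mul, hs.act, pow_succ h m, Subgroup.coe_mul]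
      group
    · have h3 : s + h ^ m • v - (m + 1) • v = (s - m • v) + (h ^ m • v - v) := by
        rw [add_smul, one_smul]; abel
      rw [h3]
      exact (cmm H V h).add_mem h2 (PCS_cmm_pow h m v)

end spl

/-- row PCS -/
theorem PCS : PCS_stmt := by
  intro G V _ _ _ N H _ j p _ hN hs hp n hB
  classical
  obtain ⟨f, hf1, hf2, hf3⟩ := hB
  have hpp : p.Prime := Fact.out
  -- the elements z
  let z : Fin n → G := fun i => j (Multiplicative.ofAdd (f i).1) * ((f i).2 : G)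
  have hz1 : ∀ i, z i ≠ 1 := by
    intro i hi
    have h1 : j (Multiplicative.ofAdd (f i).1) * ((f i).2 : G) =
        j (Multiplicative.ofAdd 0) * ((1 : H) : G) := by
      rw [ofAdd_zero, map_one, Subgroup.coe_one, mul_one]
      exact hi
    obtain ⟨h2, _⟩ := PCS_uniq hs _ _ _ _ h1
    apply hf1 i
    rw [h2]
    exact (cmm H V (f i).2).zero_mem
  have hz2 : ∀ i, ∃ k : ℕ, z i ^ (p ^ k) = 1 := by
    intro i
    obtain ⟨k, hk⟩ := hf2 i
    obtain ⟨s, h1, _⟩ := PCS_zpow hs (f i).1 (f i).2 (p ^ k)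
    refine ⟨k + 1, ?_⟩
    have h2 : z i ^ (p ^ (k + 1)) = (z i ^ (p ^ k)) ^ p := by rw [← pow_mul, pow_succ]
    rw [h2]
    change ((j (Multiplicative.ofAdd (f i).1) * ((f i).2 : G)) ^ (p ^ k)) ^ p = 1
    rw [h1, hk, Subgroup.coe_one, mul_one, ← map_pow, ← ofAdd_nsmul, hp, ofAdd_zero, map_one]
  -- case a
  have ca : ∀ x x' : H, PCS_cl (x : G) = PCS_cl (x' : G) → PCS_cl x = PCS_cl x' := by
    intro x x' he
    obtain ⟨g, hg⟩ := PCS_of_cl _ _ he
    obtain ⟨⟨m, hm⟩, ho⟩ := PCS_pow _ _ _ hg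
    obtain ⟨u, a, rfl⟩ := PCS_dec hN hs g
    have h1 := PCS_conj hs u 0 a (x ^ m)
    rw [ofAdd_zero, map_one, one_mul, Subgroup.coe_pow, ← hm] at h1
    have h2 : j (Multiplicative.ofAdd 0) * (x' : G) = j (Multiplicative.ofAdd (u + a • (0 : V) -
        (a * x ^ m * a⁻¹) • u)) * ((a * x ^ m * a⁻¹ : H) : G) := by
      rw [ofAdd_zero, map_one, one_mul]
      exact h1
    obtain ⟨_, h3⟩ := PCS_uniq hs _ _ _ _ h2
    refine PCS_cl_of x x' a ?_
    have h4 : Subgroup.zpowers x' ≤ cj a (Subgroup.zpowers x) := by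
      rw [Subgroup.zpowers_le, mem_cj, h3]
      have h5 : a⁻¹ * (a * x ^ m * a⁻¹) * a = x ^ m := by group
      rw [h5]
      exact (Subgroup.zpowers x).pow_mem (Subgroup.mem_zpowers x) m
    have h6 : Nat.card (cj a (Subgroup.zpowers x)) ≤ Nat.card (Subgroup.zpowers x') := by
      rw [PCS_card, Nat.card_zpowers, Nat.card_zpowers, ← Subgroup.orderOf_coe x,
        ← Subgroup.orderOf_coe x', ho]
    exact Subgroup.eq_of_le_of_card_ge h4 h6
  -- case b
  have cb : ∀ (x : H) (i : Fin n), PCS_cl (x : G) ≠ PCS_cl (z i) := by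
    intro x i he
    obtain ⟨g, hg⟩ := PCS_of_cl _ _ he
    obtain ⟨⟨m, hm⟩, _⟩ := PCS_pow _ _ _ hg
    obtain ⟨u, a, rfl⟩ := PCS_dec hN hs g
    have h1 := PCS_conj hs u 0 a (x ^ m)
    rw [ofAdd_zero, map_one, one_mul, Subgroup.coe_pow, ← hm] at h1
    obtain ⟨h2, h3⟩ := PCS_uniq hs _ _ _ _ h1
    apply hf1 i
    refine ⟨-u, ?_⟩
    rw [h2, h3, smul_zero, add_zero, smul_neg]
    abel
  -- case c
  have cc : ∀ i i' : Fin n, PCS_cl (z i) = PCS_cl (z i') → i = i' := by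
    intro i i' he
    obtain ⟨g, hg⟩ := PCS_of_cl _ _ he
    obtain ⟨⟨m, hm⟩, ho⟩ := PCS_pow _ _ _ hg
    obtain ⟨u, a, rfl⟩ := PCS_dec hN hs g
    obtain ⟨s, hs1, hs2⟩ := PCS_zpow hs (f i).1 (f i).2 m
    have hpm : ¬ p ∣ m := by
      intro hd
      obtain ⟨k, hk⟩ := hz2 i
      obtain ⟨r, _, hr⟩ := (Nat.dvd_prime_pow hpp).1 (orderOf_dvd_of_pow_eq_one hk)
      have hr0 : r ≠ 0 := by
        rintro rfl
        rw [pow_zero, orderOf_eq_one_iff] at hr
        exact hz1 i hr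
      obtain ⟨r', rfl⟩ := Nat.exists_eq_succ_of_ne_zero hr0
      obtain ⟨c, rfl⟩ := hd
      have h1 : z i' ^ (p ^ r') = 1 := by
        rw [hm, conj_pow, ← pow_mul]
        have h2 : z i ^ (p * c * p ^ r') = 1 := by
          have h3 : p * c * p ^ r' = orderOf (z i) * c := by
            rw [hr, Nat.succ_eq_add_one, pow_succ]; ring
          rw [h3, pow_mul, pow_orderOf_eq_one, one_pow]
        rw [h2, mul_one, mul_inv_cancel]
      have h4 := orderOf_dvd_of_pow_eq_one h1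
      rw [ho, hr] at h4
      have h5 := Nat.le_of_dvd (pow_pos hpp.pos _) h4
      have h6 : p ^ r' < p ^ (r' + 1) := Nat.pow_lt_pow_right hpp.one_lt (Nat.lt_succ_self _)
      exact absurd h5 (not_le.2 h6)
    have h1 := PCS_conj hs u s a ((f i).2 ^ m)
    rw [← hs1] at h1
    have h2 : z i' = j (Multiplicative.ofAdd u) * (a : G) *
        (j (Multiplicative.ofAdd (f i).1) * ((f i).2 : G)) ^ m *
        (j (Multiplicative.ofAdd u) * (a : G))⁻¹ := hm
    rw [← h2] at h1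
    obtain ⟨h3, h4⟩ := PCS_uniq hs _ _ _ _ h1
    refine hf3 i i' ⟨a, m, hpm, h4, ?_⟩
    obtain ⟨l, hl⟩ : ∃ l : ℕ, ((f i).2 ^ m) ^ l = (f i).2 := by
      apply exists_pow_eq_self_of_coprime
      obtain ⟨k, hk⟩ := hf2 i
      have h5 := orderOf_dvd_of_pow_eq_one hk
      refine Nat.Coprime.coprime_dvd_right h5 ?_
      exact Nat.Coprime.pow_right k ((hpp.coprime_iff_not_dvd.2 hpm).symm)
    have h6 : s - m • (f i).1 ∈ cmm H V ((f i).2 ^ m) := by
      obtain ⟨w, hw⟩ := hs2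
      rw [hw]
      have h7 := PCS_cmm_pow ((f i).2 ^ m) l w
      rw [hl] at h7
      exact h7
    have h8 := PCS_cmm_conj a _ _ h6
    have h9 : (f i').1 - m • (a • (f i).1) = -((a * (f i).2 ^ m * a⁻¹) • u - u) +
        a • (s - m • (f i).1) := by
      rw [h3, smul_sub, smul_comm a m (f i).1]
      abel
    rw [h9, h4]
    exact (cmm H V (a * (f i).2 ^ m * a⁻¹)).add_mem
      ((cmm H V (a * (f i).2 ^ m * a⁻¹)).neg_mem ⟨u, rfl⟩) h8
  -- the count
  have hch : ∀ S : Set (Subgroup H), S ∈ pcl p H → ∃ x : H, x ≠ 1 ∧ (∃ k : ℕ, x ^ (p ^ k) = 1) ∧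
      S = PCS_cl x := fun S hS => hS
  let X : Set (Subgroup H) → H := fun S => if h : S ∈ pcl p H then Classical.choose (hch S h) else 1
  have hX : ∀ S (h : S ∈ pcl p H), X S ≠ 1 ∧ (∃ k : ℕ, X S ^ (p ^ k) = 1) ∧ S = PCS_cl (X S) := by
    intro S h
    have h1 : X S = Classical.choose (hch S h) := dif_pos h
    rw [h1]
    exact Classical.choose_spec (hch S h)
  have hA : ((fun S : Set (Subgroup H) => PCS_cl ((X S : H) : G)) '' pcl p H).ncard =
      (pcl p H).ncard := by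
    apply Set.InjOn.ncard_image
    intro S hS S' hS' he
    rw [(hX S hS).2.2, (hX S' hS').2.2]
    exact ca _ _ he
  have hBc : (Set.range (fun i : Fin n => PCS_cl (z i))).ncard = n := by
    rw [← Set.image_univ, Set.ncard_image_of_injective _ (fun i i' h => cc i i' h),
      Set.ncard_univ, Nat.card_fin]
  have hdis : Disjoint ((fun S : Set (Subgroup H) => PCS_cl ((X S : H) : G)) '' pcl p H)
      (Set.range (fun i : Fin n => PCS_cl (z i))) := by
    rw [Set.disjoint_left]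
    rintro _ ⟨S, _, rfl⟩ ⟨i, hi⟩
    exact cb _ i hi.symm
  have hsub : ((fun S : Set (Subgroup H) => PCS_cl ((X S : H) : G)) '' pcl p H) ∪
      (Set.range (fun i : Fin n => PCS_cl (z i))) ⊆ pcl p G := by
    rintro _ (⟨S, hS, rfl⟩ | ⟨i, rfl⟩)
    · obtain ⟨h1, ⟨k, hk⟩, _⟩ := hX S hS
      refine ⟨(X S : G), ?_, ⟨k, ?_⟩, rfl⟩
      · intro h
        exact h1 (Subtype.ext h)
      · rw [← Subgroup.coe_pow, hk, Subgroup.coe_one]
    · exact ⟨z i, hz1 i, hz2 i, rfl⟩
  have hfin : (pcl p G).Finite := Set.toFinite _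
  calc (pcl p H).ncard + n = ((fun S : Set (Subgroup H) => PCS_cl ((X S : H) : G)) '' pcl p H).ncard +
      (Set.range (fun i : Fin n => PCS_cl (z i))).ncard := by rw [hA, hBc]
    _ = (((fun S : Set (Subgroup H) => PCS_cl ((X S : H) : G)) '' pcl p H) ∪
      (Set.range (fun i : Fin n => PCS_cl (z i)))).ncard :=
        (Set.ncard_union_eq hdis (Set.toFinite _) (Set.toFinite _)).symm
    _ ≤ (pcl p G).ncard := Set.ncard_le_ncard hsub hfin

end Pool.Agent.LC
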